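import Pool.Agent.U884.KT.ExtB

/-!
# Project KT, package EXT: the quadratic extension `L = K(√α)`
-/

set_option autoImplicit false
set_option linter.unusedSectionVars false

namespace Pool.Agent.U884.KT

open Pool.Agent.U624.KT

theorem four_eq : (4 : K) = mk 4 0 0 0 := by
  have := natCast_eq 4
  push_cast at this
  exact this

theorem nat_mem (n : ℕ) : (n : K) ∈ R := by
  induction n with
  | zero => simp
  | succ n ih => push_cast; exact R.add_mem ih R.one_mem

theorem int_mem (n : ℤ) : (n : K) ∈ R := by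
  obtain ⟨m, rfl | rfl⟩ := n.eq_nat_or_neg
  · exact_mod_cast nat_mem m
  · push_cast
    exact R.neg_mem (nat_mem m)

/-- Coprimality in `R`. -/
theorem coprime_of (h2 : S_INT) {w z β : K} (hw : w ∈ R) (hz : z ∈ R) (hβ : β ∈ R) {p : ℕ} (hp : p.Prime)
    (hN : N4 β = p) {c : K} (hc : c ∈ R) (h : β = c * z ^ 2 - w ^ 2) :
    ∃ r ∈ R, ∃ t ∈ R, r * w + t * z = 1 := by
  let W : NumberField.RingOfIntegers K := ⟨w, (h2 w).2 hw⟩
  let Z : NumberField.RingOfIntegers K := ⟨z, (h2 z).2 hz⟩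
  let B : NumberField.RingOfIntegers K := ⟨β, (h2 β).2 hβ⟩
  let C : NumberField.RingOfIntegers K := ⟨c, (h2 c).2 hc⟩
  let J : Ideal (NumberField.RingOfIntegers K) := Ideal.span {W, Z}
  have hWJ : W ∈ J := Ideal.subset_span (by simp)
  have hZJ : Z ∈ J := Ideal.subset_span (by simp)
  have hB : B = C * (Z * Z) - W * W := by
    apply NumberField.RingOfIntegers.ext
    show β = c * (z * z) - w * w
    rw [h]; ring
  have hBJ : B ∈ J * J := by
    rw [hB]
    exact Ideal.sub_mem _ (Ideal.mul_mem_left _ _ (Ideal.mul_mem_mul hZJ hZJ)) (Ideal.mul_mem_mul hWJ hWJ)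
  have h3 : Ideal.span {B} ≤ J * J := by
    rw [Ideal.span_singleton_le_iff_mem]
    exact hBJ
  have h4 : Ideal.absNorm (J * J) ∣ Ideal.absNorm (Ideal.span {B}) :=
    Ideal.absNorm_dvd_absNorm_of_le h3
  have h5 : Ideal.absNorm (Ideal.span {B}) = p := by
    rw [Ideal.absNorm_span_singleton]
    have h6 : ((Algebra.norm ℤ B : ℤ) : ℚ) = ((p : ℤ) : ℚ) := by
      rw [Algebra.coe_norm_int]
      show Algebra.norm ℚ β = _
      rw [norm_eq, hN]
      push_cast
      rfl
    have h7 : Algebra.norm ℤ B = (p : ℤ) := by exact_mod_cast h6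
    rw [h7]
    simp
  rw [h5, map_mul] at h4
  have h6 : Ideal.absNorm J = 1 := by
    have h7 := (Nat.dvd_prime hp).1 (dvd_trans (Dvd.intro _ rfl) h4)
    rcases h7 with h7 | h7
    · exact h7
    · rw [h7] at h4
      have h8 := Nat.le_of_dvd hp.pos h4
      have h9 := hp.two_le
      nlinarith
  rw [Ideal.absNorm_eq_one_iff] at h6
  have h7 : (1 : NumberField.RingOfIntegers K) ∈ J := by rw [h6]; trivial
  rw [Ideal.mem_span_pair] at h7
  obtain ⟨a, b, hab⟩ := h7
  refine ⟨a, (h2 _).1 a.2, b, (h2 _).1 b.2, ?_⟩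
  have h8 := congrArg (fun x : NumberField.RingOfIntegers K => (x : K)) hab
  exact h8

/-- A large integer. -/
theorem exists_T {α : K} (hα : TP α) : ∃ T : ℕ, ∀ σ : K →+* ℝ, 1 < T * Real.sqrt (σ α) := by
  have h1 : ∀ σ : K →+* ℝ, ∃ T : ℕ, 1 < T * Real.sqrt (σ α) := by
    intro σ
    have h2 : 0 < Real.sqrt (σ α) := Real.sqrt_pos.2 (hα σ)
    obtain ⟨T, hT⟩ := exists_nat_gt (1 / Real.sqrt (σ α))
    exact ⟨T, by rwa [div_lt_iff₀ h2] at hT⟩
  choose T hT using h1
  refine ⟨∑ σ, T σ, fun σ => lt_of_lt_of_le (hT σ) ?_⟩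
  refine mul_le_mul_of_nonneg_right ?_ (Real.sqrt_nonneg _)
  exact_mod_cast Finset.single_le_sum (f := T) (fun _ _ => Nat.zero_le _) (Finset.mem_univ σ)

theorem t_EXT (h1 : S_PIT) (h2 : S_INT) : S_EXT := by
  intro α hα hpos hsq
  have : Fact (∀ r : K, r ^ 2 ≠ α + 0 * r) := ⟨fun r hr => hsq ⟨r, by rw [hr]; ring⟩⟩
  -- the norm of `α`
  obtain ⟨N, hN⟩ := N4_int hα
  have hNpos : 0 < N := by
    have := N4_pos hpos
    rw [hN] at this
    exact_mod_cast this
  have hαα : α * oth α = (N : K) := by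
    rw [mul_oth, hN]
    push_cast
    rfl
  lift N to ℕ using hNpos.le
  obtain ⟨T, hT⟩ := exists_T hpos
  have hmpos : 2 ≤ 8 * N := by omega
  -- the square root of `α`
  have ha_int : IsIntegral ℤ (ml 0 1 : LL α) := by
    have h3 : IsIntegral ℤ ((ml 0 1 : LL α) ^ 2) := by
      have h4 : (ml 0 1 : LL α) ^ 2 = algebraMap K (LL α) α := by
        rw [sq, ml_mul, algebraMap_eq_ml]
        congr 1 <;> ring
      rw [h4]
      exact ((h2 α).2 hα).map (algebraMap K (LL α)).toIntAlgHom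
    exact h3.of_pow two_pos
  let a : NumberField.RingOfIntegers (LL α) := ⟨ml 0 1, ha_int⟩
  let w0 : NumberField.RingOfIntegers (LL α) := 1 + ((8 * N : ℕ) : NumberField.RingOfIntegers (LL α)) * (T * a)
  obtain ⟨ω, hprime, hmod, hsign⟩ := h1 (LL α) (8 * N) w0 hmpos (by
    rw [Ideal.mem_span_singleton']
    exact ⟨T * a, by simp only [w0]; ring⟩)
  rw [Ideal.mem_span_singleton'] at hmod
  obtain ⟨y, hy⟩ := hmod
  have hyω : (ω : LL α) = 1 + ((8 * N : ℕ) : LL α) * (y : LL α) := by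
    have h3 := congrArg (fun x : NumberField.RingOfIntegers (LL α) => (x : LL α)) hy
    have h4 : (y : LL α) * ((8 * N : ℕ) : LL α) = (ω : LL α) - 1 := by
      have h5 : ((y * ((8 * N : ℕ) : NumberField.RingOfIntegers (LL α)) :
          NumberField.RingOfIntegers (LL α)) : LL α) = (y : LL α) * ((8 * N : ℕ) : LL α) := by
        push_cast
        rfl
      rw [← h5]
      exact h3
    rw [mul_comm, h4]
    ring
  obtain ⟨y1, y2, hy12⟩ := exists_ml (y : LL α)
  have hyint : IsIntegral ℤ (ml y1 y2 : LL α) := by rw [← hy12]; exact y.2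
  have hconj : IsIntegral ℤ (ml y1 (-y2) : LL α) := by
    have hmul : (-ml 0 1 : LL α) * -ml 0 1 = algebraMap K (LL α) α := by
      rw [neg_mul_neg, ml_mul, algebraMap_eq_ml]
      congr 1 <;> ring
    have h3 := hyint.map (ext (α := α) (algebraMap K (LL α)) (-ml 0 1) hmul).toIntAlgHom
    have h4 : (ext (α := α) (algebraMap K (LL α)) (-ml 0 1) hmul).toIntAlgHom (ml y1 y2) =
        ml y1 (-y2) := by
      show ext (α := α) (algebraMap K (LL α)) (-ml 0 1) hmul (ml y1 y2) = _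
      rw [ext_ml, algebraMap_eq_ml, algebraMap_eq_ml, ml_neg, ml_mul, ml_add]
      congr 1 <;> ring
    rw [h4] at h3
    exact h3
  have hdown : ∀ x : K, IsIntegral ℤ (ml x 0 : LL α) → x ∈ R := by
    intro x hx
    rw [← h2, ← isIntegral_algebraMap_iff (A := K) (B := LL α) (algebraMap K (LL α)).injective]
    exact hx
  have hy1 : 2 * y1 ∈ R := by
    apply hdown
    have h3 := hyint.add hconj
    rw [ml_add] at h3
    have h4 : y1 + y1 = 2 * y1 := by ring
    rwa [h4, add_neg_cancel] at h3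
  have hy2 : 2 * α * y2 ∈ R := by
    apply hdown
    have h3 := (hyint.sub hconj).mul ha_int
    rw [ml_sub, ml_mul] at h3
    have h4 : (y1 - y1) * 0 + α * (y2 - -y2) * 1 = 2 * α * y2 := by ring
    have h5 : (y1 - y1) * 1 + (y2 - -y2) * 0 = 0 := by ring
    rwa [h4, h5] at h3
  -- the coordinates of `ω`
  set w : K := 1 + 8 * N * y1 with hw_def
  set z : K := 8 * N * y2 with hz_def
  have hω : (ω : LL α) = ml w z := by
    rw [hyω, hy12, ml_natCast, ml_one, ml_mul, ml_add, hw_def, hz_def]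
    push_cast
    congr 1 <;> ring
  have hNR : (N : K) ∈ R := nat_mem N
  obtain ⟨r1, hr1, hwr⟩ : ∃ r ∈ R, w = 1 + 4 * r :=
    ⟨N * (2 * y1), R.mul_mem hNR hy1, by rw [hw_def]; ring⟩
  obtain ⟨r2, hr2, hzr⟩ : ∃ r ∈ R, z = 4 * r := by
    refine ⟨oth α * (2 * α * y2), R.mul_mem (oth_mem hα) hy2, ?_⟩
    have h3 : oth α * (2 * α * y2) = 2 * (α * oth α) * y2 := by ring
    rw [h3, hαα, hz_def]
    push_cast
    ring
  have h4R : (4 : K) ∈ R := by exact_mod_cast nat_mem 4
  have hwR : w ∈ R := by rw [hwr]; exact R.add_mem R.one_mem (R.mul_mem h4R hr1)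
  have hzR : z ∈ R := by rw [hzr]; exact R.mul_mem h4R hr2
  set β : K := α * z ^ 2 - w ^ 2 with hβ_def
  have hβR : β ∈ R := R.sub_mem (R.mul_mem hα (R.pow_mem hzR 2)) (R.pow_mem hwR 2)
  -- the signs
  have hω0 : (ω : LL α) ≠ 0 := by
    intro h
    have h3 : ω = 0 := NumberField.RingOfIntegers.ext h
    rw [h3] at hprime
    simp at hprime
    exact Nat.not_prime_zero hprime
  have hkey : ∀ σ : K →+* ℝ, 0 < σ z ∧ 0 < σ β := by
    intro σ
    have hσα := hpos σ
    have hs := Real.mul_self_sqrt hσα.le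
    have hs2 : -Real.sqrt (σ α) * -Real.sqrt (σ α) = σ α := by rw [neg_mul_neg]; exact hs
    have hTσ := hT σ
    have hspos : 0 < Real.sqrt (σ α) := Real.sqrt_pos.2 hσα
    set u := Real.sqrt (σ α) with hu_def
    have hw0 : (w0 : LL α) = ml 1 (8 * N * T) := by
      have h3 : (w0 : LL α) = 1 + ((8 * N : ℕ) : LL α) * ((T : LL α) * ml 0 1) := by
        simp only [w0]
        push_cast
        rfl
      rw [h3, ml_natCast, ml_natCast, ml_one, ml_mul, ml_mul, ml_add]
      push_cast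
      congr 1 <;> ring
    have h8 : (1 : ℝ) ≤ 8 * N := by
      have : 1 ≤ 8 * N := by omega
      exact_mod_cast this
    have h3 : 0 < ext (α := α) σ u hs (ω : LL α) := by
      rw [hsign, hw0, ext_ml]
      simp only [map_one, map_mul, map_natCast, map_ofNat]
      have : 0 < (T : ℝ) * u := lt_trans one_pos hTσ
      nlinarith
    have h4 : ext (α := α) σ (-u) hs2 (ω : LL α) < 0 := by
      have h5 : ¬ 0 < ext (α := α) σ (-u) hs2 (ω : LL α) := by
        rw [hsign, hw0, ext_ml]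
        simp only [map_one, map_mul, map_natCast, map_ofNat]
        nlinarith
      have h6 : ext (α := α) σ (-u) hs2 (ω : LL α) ≠ 0 := by
        rw [map_ne_zero]
        exact hω0
      exact lt_of_le_of_ne (not_lt.1 h5) h6
    rw [hω, ext_ml] at h3 h4
    constructor
    · nlinarith
    · rw [hβ_def, map_sub, map_mul, map_pow, map_pow, ← hs]
      nlinarith
  have hTPβ : TP β := fun σ => (hkey σ).2
  -- the norm of `β`
  obtain ⟨n, hn⟩ := N4_int hβR
  have hnpos : 0 < n := by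
    have := N4_pos hTPβ
    rw [hn] at this
    exact_mod_cast this
  have hpn : ((Ideal.absNorm (Ideal.span {ω}) : ℕ) : ℤ) = n := by
    rw [Ideal.absNorm_span_singleton]
    have h6 : ((Algebra.norm ℤ ω : ℤ) : ℚ) = (n : ℚ) := by
      rw [Algebra.coe_norm_int]
      show Algebra.norm ℚ (ω : LL α) = _
      rw [hω, norm_ml_rat, ← hn]
      have h7 : w ^ 2 - α * z ^ 2 = -β := by rw [hβ_def]; ring
      rw [h7]
      obtain ⟨b0, b1, b2, b3, hb⟩ := exists_mk β
      rw [hb, mk_neg, N4, N4]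
      simp only [c0_mk, c1_mk, c2_mk, c3_mk]
      ring
    have h7 : Algebra.norm ℤ ω = n := by exact_mod_cast h6
    rw [h7]
    omega
  have hpmod : n % 4 = 1 := by
    refine N4_mod ⟨4 * α * r2 ^ 2 - 2 * r1 - 4 * r1 ^ 2, ?_, ?_⟩ hn
    · have h2R : (2 : K) ∈ R := by exact_mod_cast nat_mem 2
      exact R.sub_mem (R.sub_mem (R.mul_mem (R.mul_mem h4R hα) (R.pow_mem hr2 2)) (R.mul_mem h2R hr1))
        (R.mul_mem h4R (R.pow_mem hr1 2))
    · rw [hβ_def, hwr, hzr]
      ring
  refine ⟨w, hwR, z, hzR, β, hβR, oth β, oth_mem hβR, Ideal.absNorm (Ideal.span {ω}), fun σ => (hkey σ).1, hTPβ,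
    by rw [hβ_def]; ring, ?_, hprime, by omega, ?_⟩
  · refine coprime_of h2 hwR hzR hβR hprime ?_ hα hβ_def
    rw [hn, ← hpn]
    push_cast
    rfl
  · rw [mul_oth, hn, ← hpn]
    push_cast
    rfl

end Pool.Agent.U884.KT
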