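import Pool.Agent.U624.KT.Stm

/-!
# Project KT, package EXT, part A: the norm of `K` over `ℚ`
-/

set_option autoImplicit false

namespace Pool.Agent.U884.KT

open Pool.Agent.U624.KT

/-- The coordinates as an additive equivalence. -/
noncomputable def coordAdd : K →+ (Fin 4 → ℚ) where
  toFun x := ![c0 x, c1 x, c2 x, c3 x]
  map_zero' := by
    rw [← mk_zero]
    ext i
    fin_cases i <;> rfl
  map_add' := by
    intro x y
    obtain ⟨a, b, c, d, rfl⟩ := exists_mk x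
    obtain ⟨a', b', c', d', rfl⟩ := exists_mk y
    rw [mk_add]
    ext i
    fin_cases i <;> rfl

/-- The coordinates as a linear equivalence. -/
noncomputable def coord : K ≃ₗ[ℚ] (Fin 4 → ℚ) :=
  LinearEquiv.ofBijective coordAdd.toRatLinearMap (by
    constructor
    · intro x y h
      obtain ⟨a, b, c, d, rfl⟩ := exists_mk x
      obtain ⟨a', b', c', d', rfl⟩ := exists_mk y
      have h0 : a = a' := congrFun h 0
      have h1 : b = b' := congrFun h 1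
      have h2 : c = c' := congrFun h 2
      have h3 : d = d' := congrFun h 3
      rw [h0, h1, h2, h3]
    · intro v
      refine ⟨mk (v 0) (v 1) (v 2) (v 3), ?_⟩
      ext i
      fin_cases i <;> rfl)

theorem coord_apply (x : K) : coord x = ![c0 x, c1 x, c2 x, c3 x] := rfl

noncomputable def bas : Module.Basis (Fin 4) ℚ K := Module.Basis.ofEquivFun coord

instance : FiniteDimensional ℚ K := Module.Finite.of_basis bas

instance nfK : NumberField K where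

theorem bas_eq (i : Fin 4) : bas i = mk ((Pi.single i 1 : Fin 4 → ℚ) 0) ((Pi.single i 1 : Fin 4 → ℚ) 1)
    ((Pi.single i 1 : Fin 4 → ℚ) 2) ((Pi.single i 1 : Fin 4 → ℚ) 3) := by
  rw [bas, Module.Basis.coe_ofEquivFun]
  apply coord.injective
  rw [LinearEquiv.apply_symm_apply, coord_apply]
  ext j
  fin_cases j <;> rfl

/-- The norm form. -/
def N4 (x : K) : ℚ :=
  (c0 x ^ 2 + c1 x ^ 2 - 2 * (c2 x ^ 2 + c3 x ^ 2)) ^ 2 +
    (c0 x ^ 2 + c1 x ^ 2 - 2 * (c2 x ^ 2 + c3 x ^ 2)) *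
      (2 * c0 x * c1 x + c1 x ^ 2 - 2 * (2 * c2 x * c3 x + c3 x ^ 2)) -
    (2 * c0 x * c1 x + c1 x ^ 2 - 2 * (2 * c2 x * c3 x + c3 x ^ 2)) ^ 2

theorem norm_eq (x : K) : Algebra.norm ℚ x = N4 x := by
  rw [Algebra.norm_eq_matrix_det bas]
  obtain ⟨a, b, c, d, rfl⟩ := exists_mk x
  have h : Algebra.leftMulMatrix bas (mk a b c d) = !![a, b, 2 * c, 2 * d; b, a + b, 2 * d, 2 * (c + d);
      c, d, a, b; d, c + d, b, a + b] := by
    ext i j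
    rw [Algebra.leftMulMatrix_eq_repr_mul, bas_eq, mk_mul, bas, Module.Basis.ofEquivFun_repr_apply,
      coord_apply]
    fin_cases i <;> fin_cases j <;> simp
  rw [h, N4]
  simp only [c0_mk, c1_mk, c2_mk, c3_mk]
  simp [Matrix.det_succ_row_zero, Fin.sum_univ_succ, Fin.succAbove]
  ring

/-- The product of the three other conjugates. -/
noncomputable def oth (x : K) : K :=
  mk (c0 x) (c1 x) (-c2 x) (-c3 x) *
    mk (c0 x ^ 2 + c1 x ^ 2 - 2 * (c2 x ^ 2 + c3 x ^ 2) +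
      (2 * c0 x * c1 x + c1 x ^ 2 - 2 * (2 * c2 x * c3 x + c3 x ^ 2)))
      (-(2 * c0 x * c1 x + c1 x ^ 2 - 2 * (2 * c2 x * c3 x + c3 x ^ 2))) 0 0

theorem mul_oth (x : K) : x * oth x = ((N4 x : ℚ) : K) := by
  obtain ⟨a, b, c, d, rfl⟩ := exists_mk x
  rw [oth, N4, ratCast_eq]
  simp only [c0_mk, c1_mk, c2_mk, c3_mk, mk_mul]
  exact mk_ext (by ring) (by ring) (by ring) (by ring)

theorem oth_mem {x : K} (hx : x ∈ R) : oth x ∈ R := by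
  obtain ⟨a, b, c, d, rfl⟩ := hx
  refine R.mul_mem ⟨a, b, -c, -d, ?_⟩ ⟨a ^ 2 + b ^ 2 - 2 * (c ^ 2 + d ^ 2) +
      (2 * a * b + b ^ 2 - 2 * (2 * c * d + d ^ 2)), -(2 * a * b + b ^ 2 - 2 * (2 * c * d + d ^ 2)), 0, 0, ?_⟩
  · simp only [c0_mk, c1_mk, c2_mk, c3_mk]
    push_cast
    rfl
  · simp only [c0_mk, c1_mk, c2_mk, c3_mk]
    push_cast
    rfl

theorem N4_int {x : K} (hx : x ∈ R) : ∃ n : ℤ, N4 x = n := by
  obtain ⟨a, b, c, d, rfl⟩ := hx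
  refine ⟨(a ^ 2 + b ^ 2 - 2 * (c ^ 2 + d ^ 2)) ^ 2 +
    (a ^ 2 + b ^ 2 - 2 * (c ^ 2 + d ^ 2)) * (2 * a * b + b ^ 2 - 2 * (2 * c * d + d ^ 2)) -
    (2 * a * b + b ^ 2 - 2 * (2 * c * d + d ^ 2)) ^ 2, ?_⟩
  simp only [N4, c0_mk, c1_mk, c2_mk, c3_mk]
  push_cast
  ring

/-- elements congruent to `-1` modulo `4 R` have norms congruent to `1` modulo `4` -/
theorem N4_mod {x : K} (hx : ∃ r ∈ R, x = -1 + 4 * r) {n : ℤ} (hn : N4 x = n) : n % 4 = 1 := by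
  obtain ⟨r, ⟨a, b, c, d, rfl⟩, rfl⟩ := hx
  have h4 : (4 : K) = mk 4 0 0 0 := by
    have := natCast_eq 4
    push_cast at this
    exact this
  have h : (-1 : K) + 4 * mk a b c d = mk (-1 + 4 * a) (4 * b) (4 * c) (4 * d) := by
    rw [h4, ← mk_one, mk_neg, mk_mul, mk_add]
    exact mk_ext (by ring) (by ring) (by ring) (by ring)
  rw [h, N4] at hn
  simp only [c0_mk, c1_mk, c2_mk, c3_mk] at hn
  have h2 : (((-1 + 4 * a) ^ 2 + (4 * b) ^ 2 - 2 * ((4 * c) ^ 2 + (4 * d) ^ 2)) ^ 2 +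
    ((-1 + 4 * a) ^ 2 + (4 * b) ^ 2 - 2 * ((4 * c) ^ 2 + (4 * d) ^ 2)) *
      (2 * (-1 + 4 * a) * (4 * b) + (4 * b) ^ 2 - 2 * (2 * (4 * c) * (4 * d) + (4 * d) ^ 2)) -
    (2 * (-1 + 4 * a) * (4 * b) + (4 * b) ^ 2 - 2 * (2 * (4 * c) * (4 * d) + (4 * d) ^ 2)) ^ 2 : ℤ) = n := by
    have h3 : ((((-1 + 4 * a) ^ 2 + (4 * b) ^ 2 - 2 * ((4 * c) ^ 2 + (4 * d) ^ 2)) ^ 2 +
    ((-1 + 4 * a) ^ 2 + (4 * b) ^ 2 - 2 * ((4 * c) ^ 2 + (4 * d) ^ 2)) *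
      (2 * (-1 + 4 * a) * (4 * b) + (4 * b) ^ 2 - 2 * (2 * (4 * c) * (4 * d) + (4 * d) ^ 2)) -
    (2 * (-1 + 4 * a) * (4 * b) + (4 * b) ^ 2 - 2 * (2 * (4 * c) * (4 * d) + (4 * d) ^ 2)) ^ 2 : ℤ) : ℚ) =
      (n : ℚ) := by
      rw [← hn]
      push_cast
      ring
    exact_mod_cast h3
  -- `A = 1 + 8 u`, `B = 8 v`
  obtain ⟨u, hu⟩ : ∃ u : ℤ, (-1 + 4 * a) ^ 2 + (4 * b) ^ 2 - 2 * ((4 * c) ^ 2 + (4 * d) ^ 2) = 1 + 4 * u :=
    ⟨-2 * a + 4 * a ^ 2 + 4 * b ^ 2 - 2 * (4 * c ^ 2 + 4 * d ^ 2), by ring⟩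
  obtain ⟨v, hv⟩ : ∃ v : ℤ, 2 * (-1 + 4 * a) * (4 * b) + (4 * b) ^ 2 - 2 * (2 * (4 * c) * (4 * d) + (4 * d) ^ 2)
      = 4 * v :=
    ⟨2 * (-1 + 4 * a) * b + 4 * b ^ 2 - 2 * (2 * (4 * c) * d + 4 * d ^ 2), by ring⟩
  rw [hu, hv] at h2
  have h5 : n = 1 + 4 * (2 * u + 4 * u ^ 2 + (1 + 4 * u) * v - 4 * v ^ 2) := by
    rw [← h2]; ring
  rw [h5]
  omega

theorem sqrt2 : (Real.sqrt 2) ^ 2 = 2 := Real.sq_sqrt (by norm_num)

theorem golden1 : ((1 + Real.sqrt 5) / 2) ^ 2 = (1 + Real.sqrt 5) / 2 + 1 := by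
  have h := Real.sq_sqrt (show (0 : ℝ) ≤ 5 by norm_num)
  nlinarith

theorem golden2 : ((1 - Real.sqrt 5) / 2) ^ 2 = (1 - Real.sqrt 5) / 2 + 1 := by
  have h := Real.sq_sqrt (show (0 : ℝ) ≤ 5 by norm_num)
  nlinarith

theorem nsqrt2 : (-Real.sqrt 2) ^ 2 = 2 := by rw [neg_sq]; exact sqrt2

theorem N4_pos {x : K} (hx : TP x) : 0 < N4 x := by
  have h1 := hx (emb _ _ sqrt2 golden1)
  have h2 := hx (emb _ _ nsqrt2 golden1)
  have h3 := hx (emb _ _ sqrt2 golden2)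
  have h4 := hx (emb _ _ nsqrt2 golden2)
  have h : ((N4 x : ℚ) : ℝ) = (emb _ _ sqrt2 golden1 x * emb _ _ nsqrt2 golden1 x) *
      (emb _ _ sqrt2 golden2 x * emb _ _ nsqrt2 golden2 x) := by
    obtain ⟨a, b, c, d, rfl⟩ := exists_mk x
    simp only [emb_apply, N4, c0_mk, c1_mk, c2_mk, c3_mk]
    push_cast
    have e1 : ∀ g : ℝ, g ^ 2 = g + 1 → ((a : ℝ) + b * g + c * Real.sqrt 2 + d * (g * Real.sqrt 2)) *
        ((a : ℝ) + b * g + c * -Real.sqrt 2 + d * (g * -Real.sqrt 2)) =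
        ((a : ℝ) ^ 2 + b ^ 2 - 2 * (c ^ 2 + d ^ 2)) + (2 * a * b + b ^ 2 - 2 * (2 * c * d + d ^ 2)) * g := by
      intro g hg
      linear_combination ((b : ℝ) ^ 2 - 2 * d ^ 2) * hg - (c + d * g) ^ 2 * sqrt2
    rw [e1 _ golden1, e1 _ golden2]
    have h5 := Real.sq_sqrt (show (0 : ℝ) ≤ 5 by norm_num)
    generalize (a : ℝ) ^ 2 + b ^ 2 - 2 * (c ^ 2 + d ^ 2) = A
    generalize 2 * (a : ℝ) * b + b ^ 2 - 2 * (2 * c * d + d ^ 2) = B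
    linear_combination (B ^ 2 / 4) * h5
  have h0 : (0 : ℝ) < ((N4 x : ℚ) : ℝ) := by
    rw [h]
    exact mul_pos (mul_pos h1 h2) (mul_pos h3 h4)
  exact_mod_cast h0

end Pool.Agent.U884.KT
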