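import Pool.Agent.U884.KT.ExtA

/-!
# Project KT, package EXT, part B: the quadratic extension `L = K(√α)`
-/

set_option autoImplicit false
set_option linter.unusedSectionVars false

namespace Pool.Agent.U884.KT

open Pool.Agent.U624.KT

/-- `L = K(√α)` -/
def LL (α : K) : Type := QuadraticAlgebra K α 0

section

variable (α : K) [hα : Fact (∀ r : K, r ^ 2 ≠ α + 0 * r)]

noncomputable instance : Field (LL α) := inferInstanceAs (Field (QuadraticAlgebra K α 0))

noncomputable instance : Algebra K (LL α) := inferInstanceAs (Algebra K (QuadraticAlgebra K α 0))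

instance : Module.Finite K (LL α) := inferInstanceAs (Module.Finite K (QuadraticAlgebra K α 0))

instance : CharZero (LL α) := inferInstanceAs (CharZero (QuadraticAlgebra K α 0))

instance : IsScalarTower ℚ K (LL α) := IsScalarTower.of_algebraMap_eq' (Subsingleton.elim _ _)

instance : FiniteDimensional ℚ (LL α) := Module.Finite.trans K (LL α)

instance : NumberField (LL α) where

end

section

variable {α : K} [hα : Fact (∀ r : K, r ^ 2 ≠ α + 0 * r)]

/-- `x + y √α` -/
def ml (x y : K) : LL α := (⟨x, y⟩ : QuadraticAlgebra K α 0)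

/-- the coordinates -/
def l0 (x : LL α) : K := QuadraticAlgebra.re (show QuadraticAlgebra K α 0 from x)
/-- the coordinates -/
def l1 (x : LL α) : K := QuadraticAlgebra.im (show QuadraticAlgebra K α 0 from x)

@[simp] theorem l0_ml (x y : K) : l0 (ml x y : LL α) = x := rfl
@[simp] theorem l1_ml (x y : K) : l1 (ml x y : LL α) = y := rfl

theorem leta (x : LL α) : ml (l0 x) (l1 x) = x := rfl

theorem exists_ml (x : LL α) : ∃ a b : K, x = ml a b := ⟨_, _, (leta x).symm⟩

theorem ml_add (x y x' y' : K) : (ml x y + ml x' y' : LL α) = ml (x + x') (y + y') := rfl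

theorem ml_sub (x y x' y' : K) : (ml x y - ml x' y' : LL α) = ml (x - x') (y - y') := rfl

theorem ml_neg (x y : K) : (-ml x y : LL α) = ml (-x) (-y) := rfl

theorem ml_mul (x y x' y' : K) :
    (ml x y * ml x' y' : LL α) = ml (x * x' + α * y * y') (x * y' + y * x') := by
  show ((⟨x, y⟩ : QuadraticAlgebra K α 0) * ⟨x', y'⟩ : QuadraticAlgebra K α 0) = _
  ext <;> simp [ml]

theorem algebraMap_eq_ml (x : K) : algebraMap K (LL α) x = ml x 0 := rfl

theorem ml_one : (1 : LL α) = ml 1 0 := rfl

theorem ml_zero : (0 : LL α) = ml 0 0 := rfl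

theorem ml_natCast (n : ℕ) : ((n : ℕ) : LL α) = ml n 0 := by
  rw [← algebraMap_eq_ml, map_natCast]

/-- The extension of a homomorphism to `L`. -/
noncomputable def ext {A : Type} [CommRing A] (σ : K →+* A) (u : A) (hu : u * u = σ α) : LL α →+* A where
  toFun x := σ (l0 x) + σ (l1 x) * u
  map_one' := by rw [ml_one]; simp
  map_zero' := by rw [ml_zero]; simp
  map_add' := by
    intro x y
    obtain ⟨a, b, rfl⟩ := exists_ml x
    obtain ⟨a', b', rfl⟩ := exists_ml y
    rw [ml_add]
    simp only [l0_ml, l1_ml, map_add]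
    ring
  map_mul' := by
    intro x y
    obtain ⟨a, b, rfl⟩ := exists_ml x
    obtain ⟨a', b', rfl⟩ := exists_ml y
    rw [ml_mul]
    simp only [l0_ml, l1_ml, map_add, map_mul]
    linear_combination (-(σ b * σ b')) * hu

theorem ext_ml {A : Type} [CommRing A] (σ : K →+* A) (u : A) (hu : u * u = σ α) (a b : K) :
    ext (α := α) σ u hu (ml a b) = σ a + σ b * u := rfl

/-- The norm to `K`. -/
theorem norm_ml (a b : K) : Algebra.norm K (ml a b : LL α) = a ^ 2 - α * b ^ 2 := by
  have h := QuadraticAlgebra.det_toLinearMap_eq_norm (⟨a, b⟩ : QuadraticAlgebra K α 0)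
  rw [QuadraticAlgebra.norm_def] at h
  have h2 : Algebra.norm K (ml a b : LL α) =
      (DistribSMul.toLinearMap K (QuadraticAlgebra K α 0) (⟨a, b⟩ : QuadraticAlgebra K α 0)).det := by
    rw [Algebra.norm_apply]
    rfl
  rw [h2, h]
  ring

/-- The norm to `ℚ`. -/
theorem norm_ml_rat (a b : K) : Algebra.norm ℚ (ml a b : LL α) = N4 (a ^ 2 - α * b ^ 2) := by
  rw [← Algebra.norm_norm (S := K), norm_ml, norm_eq]

end

end Pool.Agent.U884.KT
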